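import Pool.Agent.RP60.Def

/-!
Second version: spreading of rainbow words of length `ℓ`.
-/

namespace RP60

open Finset RP97

variable {V : Type*} {k : ℕ}

/-- Any vertex is reached from any given vertex by at most a fraction `Δ / k` of the words of
length `ℓ`, the words being rainbow. -/
def CodL (S : Sys V k) [DecidableEq V] (ℓ : ℕ) (Δ : ℝ) : Prop :=
  ∀ y z, (((nd (∅ : Finset (Fin k)) ℓ).filter (fun u => S.ep u y = z)).card : ℝ) ≤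
    Δ / k * (k : ℝ) ^ ℓ

/-- The parameters of the second version. -/
structure Par2 (k ℓ n b B q t : ℕ) (Δ : ℝ) : Prop where
  hn : 1 ≤ n
  hk : k < 2 ^ (n + 1)
  hℓ : 1 ≤ ℓ
  hh : 3 ≤ ℓ * (n + 1)
  hΔ : ((ℓ * (n + 1) : ℕ) : ℝ) / k ≤ Δ
  hb : 8 * n * (n + 1) * (ℓ * (n + 1)) ≤ b
  hB1 : 2 * n ^ 2 * (ℓ * (n + 1)) ^ 2 ≤ B
  hB2 : 4 * 2592 * (ℓ * (n + 1)) * n ^ 2 * (n + 2) ≤ B
  hB3 : 8 * ℓ * n ^ 2 * (ℓ * (n + 1)) ≤ B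
  hX : 3200 * Δ * (b * B : ℕ) ≤ 1
  ht1 : 2 * B * (2 * (n + 1) * (ℓ * (n + 1)) + 1) ≤ t
  ht2 : 2 * (ℓ * (n + 1)) ^ 2 ≤ t
  hq1 : 2048 * t ^ 4 ≤ q
  hq2 : 3200 * Δ * q ≤ 1
  hq3 : 64 * q ≤ k

end RP60
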