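import Pool.Agent.RP60.Det
import Pool.Agent.RP61.Def2

/-!
Deterministic bounds, second version: blocks of `ℓ` letters.
-/

namespace RP60

open Finset RP97

variable {V : Type*} {k : ℕ} (S : Sys V k) [DecidableEq V]

private lemma det2_prod_nonneg {ω : Fin k → ℝ} (h0 : ∀ c, 0 ≤ ω c) (l : List (Fin k)) :
    0 ≤ (l.map ω).prod := by
  induction l with
  | nil => simp
  | cons c l ih =>
    rw [List.map_cons, List.prod_cons]
    exact mul_nonneg (h0 c) ih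

/-- Sums over words of distinct letters, by the head letter. -/
private lemma det2_succ (U : Finset (Fin k)) (t : ℕ) {f : List (Fin k) → ℝ} (hf : ∀ l, 0 ≤ f l) :
    ∑ u ∈ nd U (t + 1), f u ≤ ∑ c, ∑ v ∈ nd U t, f (c :: v) := by
  rw [nd, Finset.sum_image]
  · rw [← Finset.sum_product']
    exact Finset.sum_le_sum_of_subset_of_nonneg (Finset.filter_subset _ _) fun p _ _ => hf _
  · intro p _ q _ h
    simp only [List.cons.injEq] at h
    exact Prod.ext h.1 h.2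

private lemma det2_pow {ω : Fin k → ℝ} {T : ℝ} (h0 : ∀ c, 0 ≤ ω c) (hT : ∑ c, ω c ≤ T)
    (hT0 : 0 ≤ T) (a : ℕ) : ∑ v ∈ nd (∅ : Finset (Fin k)) a, (v.map ω).prod ≤ T ^ a := by
  induction a with
  | zero => simp [nd]
  | succ a ih =>
    refine (det2_succ ∅ a (f := fun v => (v.map ω).prod) fun l => det2_prod_nonneg h0 l).trans ?_
    have h1 : ∑ c, ∑ v ∈ nd (∅ : Finset (Fin k)) a, ((c :: v).map ω).prod =
        (∑ c, ω c) * ∑ v ∈ nd (∅ : Finset (Fin k)) a, (v.map ω).prod := by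
      rw [Finset.sum_mul]
      refine Finset.sum_congr rfl fun c _ => ?_
      rw [Finset.mul_sum]
      refine Finset.sum_congr rfl fun v _ => ?_
      rw [List.map_cons, List.prod_cons]
    rw [h1, pow_succ, mul_comm]
    exact mul_le_mul ih hT (Finset.sum_nonneg fun c _ => h0 c) (pow_nonneg hT0 a)

private lemma det2_split (a ℓ : ℕ) {f : List (Fin k) → ℝ} (hf : ∀ l, 0 ≤ f l) :
    ∑ u ∈ nd (∅ : Finset (Fin k)) (a + ℓ), f u ≤
      ∑ w ∈ nd (∅ : Finset (Fin k)) ℓ, ∑ v ∈ nd (∅ : Finset (Fin k)) a, f (w ++ v) := by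
  have h1 : ∑ u ∈ nd (∅ : Finset (Fin k)) (a + ℓ), f u =
      ∑ p ∈ (nd (∅ : Finset (Fin k)) (a + ℓ)).image (fun u => (u.take ℓ, u.drop ℓ)),
        f (p.1 ++ p.2) := by
    rw [Finset.sum_image]
    · refine Finset.sum_congr rfl fun u _ => ?_
      rw [List.take_append_drop]
    · intro u _ v _ h
      simp only [Prod.mk.injEq] at h
      rw [← List.take_append_drop ℓ u, ← List.take_append_drop ℓ v, h.1, h.2]
  rw [h1, ← Finset.sum_product']
  refine Finset.sum_le_sum_of_subset_of_nonneg ?_ fun p _ _ => hf _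
  intro p hp
  rw [mem_image] at hp
  obtain ⟨u, hu, rfl⟩ := hp
  obtain ⟨h2, h3, -⟩ := mem_nd.1 hu
  rw [mem_product, mem_nd, mem_nd]
  refine ⟨⟨?_, h3.sublist (List.take_sublist _ _), fun c _ => notMem_empty c⟩, ?_,
    h3.sublist (List.drop_sublist _ _), fun c _ => notMem_empty c⟩
  · rw [List.length_take]; omega
  · rw [List.length_drop]; omega

omit [DecidableEq V] in
private lemma det2_inv (w : List (Fin k)) (z : V) : ∃ z', ∀ x, S.ep w x = z ↔ x = z' := by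
  induction w generalizing z with
  | nil => exact ⟨z, fun x => Iff.rfl⟩
  | cons c w ih =>
    obtain ⟨z', hz'⟩ := ih (S.nb c z)
    refine ⟨z', fun x => ?_⟩
    rw [← hz' x, ep_cons]
    constructor
    · intro h
      rw [← h, S.invol]
    · intro h
      rw [h, S.invol]

private lemma det2_small {ω : Fin k → ℝ} {O : Finset (Fin k)} {ρ : ℝ} (h0 : ∀ c, 0 ≤ ω c)
    (hO : ∀ c ∉ O, ω c ≤ ρ) (hρ : 0 ≤ ρ) {l : List (Fin k)} (hl : ∀ c ∈ l, c ∉ O) :
    (l.map ω).prod ≤ ρ ^ l.length := by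
  induction l with
  | nil => simp
  | cons c l ih =>
    rw [List.map_cons, List.prod_cons, List.length_cons, pow_succ, mul_comm]
    exact mul_le_mul (ih fun d hd => hl d (List.mem_cons_of_mem _ hd))
      (hO c (hl c (List.mem_cons_self ..))) (h0 c) (pow_nonneg hρ _)

private lemma det2_sum_O {ω : Fin k → ℝ} {O : Finset (Fin k)} {σ : ℝ}
    (hσ : ∑ c ∈ O, ω c ≤ σ) : ∑ c, (if c ∈ O then ω c else 0) ≤ σ := by
  rw [← Finset.sum_filter]
  rwa [Finset.filter_mem_eq_inter, Finset.univ_inter]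

/-- Words meeting `O`. -/
private lemma det2_someO {ω : Fin k → ℝ} {O : Finset (Fin k)} {σ T : ℝ}
    (h0 : ∀ c, 0 ≤ ω c) (hσ : ∑ c ∈ O, ω c ≤ σ)
    (hT : ∑ c, ω c ≤ T) (hσ0 : 0 ≤ σ) (hT0 : 0 ≤ T) (m : ℕ) :
    ∑ w ∈ nd (∅ : Finset (Fin k)) (m + 1), (if ∃ d ∈ w, d ∈ O then (w.map ω).prod else 0) ≤
      ((m : ℝ) + 1) * σ * T ^ m := by
  have hso := det2_sum_O (ω := ω) hσ
  have hO0 : ∀ c, 0 ≤ (if c ∈ O then ω c else 0) := fun c => by
    split_ifs
    · exact h0 c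
    · exact le_rfl
  have hf : ∀ l : List (Fin k), 0 ≤ (if ∃ d ∈ l, d ∈ O then (l.map ω).prod else 0) := fun l => by
    split_ifs
    · exact det2_prod_nonneg h0 l
    · exact le_rfl
  have key : ∀ n : ℕ, ∑ w ∈ nd (∅ : Finset (Fin k)) (n + 1),
      (if ∃ d ∈ w, d ∈ O then (w.map ω).prod else 0) ≤
      σ * T ^ n + T * ∑ w ∈ nd (∅ : Finset (Fin k)) n,
        (if ∃ d ∈ w, d ∈ O then (w.map ω).prod else 0) := by
    intro n
    refine (det2_succ ∅ n hf).trans ?_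
    have h1 : ∀ c : Fin k, ∀ v : List (Fin k),
        (if ∃ d ∈ c :: v, d ∈ O then ((c :: v).map ω).prod else 0) ≤
        (if c ∈ O then ω c else 0) * (v.map ω).prod +
          ω c * (if ∃ d ∈ v, d ∈ O then (v.map ω).prod else 0) := by
      intro c v
      have hv0 := det2_prod_nonneg h0 v
      have hc0 := h0 c
      by_cases hc : c ∈ O
      · rw [if_pos ⟨c, List.mem_cons_self .., hc⟩, if_pos hc, List.map_cons, List.prod_cons]
        have := mul_nonneg hc0 (hf v)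
        linarith
      · by_cases hv : ∃ d ∈ v, d ∈ O
        · obtain ⟨d, hd, hdO⟩ := hv
          rw [if_pos ⟨d, List.mem_cons_of_mem _ hd, hdO⟩, if_neg hc, if_pos ⟨d, hd, hdO⟩,
            List.map_cons, List.prod_cons]
          linarith
        · rw [if_neg, if_neg hc, if_neg hv]
          · simp
          · rintro ⟨d, hd, hdO⟩
            rcases List.mem_cons.1 hd with rfl | hd
            · exact hc hdO
            · exact hv ⟨d, hd, hdO⟩
    refine (Finset.sum_le_sum fun c _ => Finset.sum_le_sum fun v _ => h1 c v).trans ?_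
    simp only [Finset.sum_add_distrib, ← Finset.mul_sum, ← Finset.sum_mul]
    refine add_le_add ?_ ?_
    · exact mul_le_mul hso (det2_pow h0 hT hT0 n)
        (Finset.sum_nonneg fun v _ => det2_prod_nonneg h0 v) hσ0
    · exact mul_le_mul_of_nonneg_right hT (Finset.sum_nonneg fun v _ => hf v)
  induction m with
  | zero =>
    refine (key 0).trans ?_
    simp [nd]
  | succ m ih =>
    refine (key (m + 1)).trans ?_
    have h2 := mul_le_mul_of_nonneg_left ih hT0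
    push_cast
    have h3 : T * (((m : ℝ) + 1) * σ * T ^ m) = ((m : ℝ) + 1) * σ * T ^ (m + 1) := by ring
    linarith

/-- Three letters, without assumption on the graph. -/
theorem det_three2 {ω : Fin k → ℝ} {O : Finset (Fin k)} {ρ σ μ T : ℝ}
    (h0 : ∀ c, 0 ≤ ω c) (hO : ∀ c ∉ O, ω c ≤ ρ) (hσ : ∑ c ∈ O, ω c ≤ σ) (hμ : ∀ c, ω c ≤ μ)
    (hT : ∑ c, ω c ≤ T) (hρ : 0 ≤ ρ) (hσ0 : 0 ≤ σ) (hμ0 : 0 ≤ μ) (hT0 : 0 ≤ T) (y z : V) :
    A S ω 3 y z ≤ (k : ℝ) ^ 2 * ρ ^ 3 + 3 * σ * T * μ := by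
  have hS : Cod S (k ^ 2) := by
    intro y z
    have h1 : (nd (∅ : Finset (Fin k)) 2).card ≤ k ^ 2 := by
      rw [card_nd, Finset.card_empty, Nat.sub_zero]
      exact Nat.descFactorial_le_pow k 2
    refine le_trans (Finset.card_le_card_of_injOn (fun u => u.take 2) ?_ ?_) h1
    · intro u hu
      have hu' := (mem_filter.1 (Finset.mem_coe.1 hu)).1
      obtain ⟨h2, h3, -⟩ := mem_nd.1 hu'
      refine Finset.mem_coe.2 (mem_nd.2 ⟨?_, h3.sublist (List.take_sublist _ _),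
        fun c _ => notMem_empty c⟩)
      rw [List.length_take]; omega
    · intro u hu v hv huv
      obtain ⟨hu1, hu2⟩ := mem_filter.1 (Finset.mem_coe.1 hu)
      obtain ⟨hv1, hv2⟩ := mem_filter.1 (Finset.mem_coe.1 hv)
      obtain ⟨hu3, -, -⟩ := mem_nd.1 hu1
      obtain ⟨hv3, -, -⟩ := mem_nd.1 hv1
      obtain ⟨a, b, c, rfl⟩ := List.length_eq_three.1 hu3
      obtain ⟨a', b', c', rfl⟩ := List.length_eq_three.1 hv3
      have h4 : a = a' ∧ b = b' := by simpa using huv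
      obtain ⟨rfl, rfl⟩ := h4
      have h5 : S.ep [a, b, c] y = S.ep [a, b, c'] y := hu2.trans hv2.symm
      have h6 : S.nb c y = S.nb c' y := nb_injective S b (nb_injective S a h5)
      rw [S.inj y c c' h6]
  have h1 := det_three S hS h0 hO hσ hμ hT hρ hσ0 hμ0 hT0 y z
  push_cast at h1
  exact h1

theorem det_block {ℓ : ℕ} {Δ : ℝ} (hS : CodL S ℓ Δ) {ω : Fin k → ℝ} {O : Finset (Fin k)}
    {ρ σ T M : ℝ} (h0 : ∀ c, 0 ≤ ω c) (hO : ∀ c ∉ O, ω c ≤ ρ) (hσ : ∑ c ∈ O, ω c ≤ σ)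
    (hT : ∑ c, ω c ≤ T) (hρ : 0 ≤ ρ) (hσ0 : 0 ≤ σ) (hT0 : 0 ≤ T) (hΔ : 0 ≤ Δ) (hM : 0 ≤ M)
    (hℓ : 1 ≤ ℓ) (a : ℕ) (y : V) (hA : ∀ z, A S ω a y z ≤ M) (z : V) :
    A S ω (a + ℓ) y z ≤ Δ / k * (k : ℝ) ^ ℓ * ρ ^ ℓ * T ^ a + ℓ * σ * T ^ (ℓ - 1) * M := by
  classical
  have hE : 0 ≤ Δ / k * (k : ℝ) ^ ℓ * ρ ^ ℓ := by positivity
  have hF : A S ω (a + ℓ) y z = ∑ u ∈ nd (∅ : Finset (Fin k)) (a + ℓ),
      (if S.ep u y = z then (u.map ω).prod else 0) := by
    unfold A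
    rw [Finset.sum_filter]
  rw [hF]
  refine (det2_split a ℓ (f := fun u => if S.ep u y = z then (u.map ω).prod else 0)
    fun l => ?_).trans ?_
  · split_ifs
    · exact det2_prod_nonneg h0 l
    · exact le_rfl
  have h1 : ∀ w ∈ nd (∅ : Finset (Fin k)) ℓ, ∀ v ∈ nd (∅ : Finset (Fin k)) a,
      (if S.ep (w ++ v) y = z then ((w ++ v).map ω).prod else 0) ≤
      (if S.ep w (S.ep v y) = z then ρ ^ ℓ * (v.map ω).prod else 0) +
        (if ∃ d ∈ w, d ∈ O then (w.map ω).prod else 0) *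
          (if S.ep w (S.ep v y) = z then (v.map ω).prod else 0) := by
    intro w hw v _
    have hv0 := det2_prod_nonneg h0 v
    rw [ep_append, List.map_append, List.prod_append]
    by_cases hz : S.ep w (S.ep v y) = z
    · rw [if_pos hz, if_pos hz, if_pos hz]
      by_cases hd : ∃ d ∈ w, d ∈ O
      · rw [if_pos hd]
        have : 0 ≤ ρ ^ ℓ * (v.map ω).prod := by positivity
        linarith
      · rw [if_neg hd, zero_mul, add_zero]
        push Not at hd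
        have h2 := det2_small h0 hO hρ hd
        rw [(mem_nd.1 hw).1] at h2
        exact mul_le_mul_of_nonneg_right h2 hv0
    · rw [if_neg hz, if_neg hz, if_neg hz, mul_zero, add_zero]
  refine (Finset.sum_le_sum fun w hw => Finset.sum_le_sum fun v hv => h1 w hw v hv).trans ?_
  simp only [Finset.sum_add_distrib]
  refine add_le_add ?_ ?_
  · rw [Finset.sum_comm]
    have h2 : ∀ v ∈ nd (∅ : Finset (Fin k)) a, ∑ w ∈ nd (∅ : Finset (Fin k)) ℓ,
        (if S.ep w (S.ep v y) = z then ρ ^ ℓ * (v.map ω).prod else 0) ≤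
        Δ / k * (k : ℝ) ^ ℓ * ρ ^ ℓ * (v.map ω).prod := by
      intro v _
      rw [← Finset.sum_filter, Finset.sum_const, nsmul_eq_mul, mul_assoc _ (ρ ^ ℓ)]
      have hv0 := det2_prod_nonneg h0 v
      exact mul_le_mul_of_nonneg_right (hS _ z) (by positivity)
    refine (Finset.sum_le_sum h2).trans ?_
    rw [← Finset.mul_sum]
    exact mul_le_mul_of_nonneg_left (det2_pow h0 hT hT0 a) hE
  · have h2 : ∀ w ∈ nd (∅ : Finset (Fin k)) ℓ, ∑ v ∈ nd (∅ : Finset (Fin k)) a,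
        (if ∃ d ∈ w, d ∈ O then (w.map ω).prod else 0) *
          (if S.ep w (S.ep v y) = z then (v.map ω).prod else 0) ≤
        (if ∃ d ∈ w, d ∈ O then (w.map ω).prod else 0) * M := by
      intro w _
      rw [← Finset.mul_sum]
      refine mul_le_mul_of_nonneg_left ?_ ?_
      · obtain ⟨z', hz'⟩ := det2_inv S w z
        have h3 := hA z'
        unfold A at h3
        rw [Finset.sum_filter] at h3
        refine le_trans (le_of_eq ?_) h3
        refine Finset.sum_congr rfl fun v _ => ?_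
        exact if_congr (hz' _) rfl rfl
      · split_ifs
        · exact det2_prod_nonneg h0 w
        · exact le_rfl
    refine (Finset.sum_le_sum h2).trans ?_
    rw [← Finset.sum_mul]
    refine mul_le_mul_of_nonneg_right ?_ hM
    obtain ⟨m, rfl⟩ : ∃ m, ℓ = m + 1 := ⟨ℓ - 1, by omega⟩
    have h3 := det2_someO h0 hσ hT hσ0 hT0 m
    rw [Nat.add_sub_cancel]
    push_cast
    exact h3

theorem det_long2 {ℓ : ℕ} {Δ : ℝ} (hS : CodL S ℓ Δ) {ω : Fin k → ℝ} {O : Finset (Fin k)}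
    {ρ σ T : ℝ} (h0 : ∀ c, 0 ≤ ω c) (hO : ∀ c ∉ O, ω c ≤ ρ) (hσ : ∑ c ∈ O, ω c ≤ σ)
    (hT : ∑ c, ω c ≤ T) (hρ : 0 ≤ ρ) (hσ0 : 0 ≤ σ) (hT1 : 1 ≤ T) (hΔ : 0 ≤ Δ) (hℓ : 1 ≤ ℓ)
    (hσ2 : 2 * ℓ * σ ≤ 1) (g : ℕ) (y z : V) :
    A S ω (ℓ * g) y z ≤ T ^ (ℓ * g) * (2 * (Δ / k * (k : ℝ) ^ ℓ * ρ ^ ℓ) + (ℓ * σ) ^ g) := by
  have hT0 : 0 ≤ T := by linarith
  set E : ℝ := Δ / k * (k : ℝ) ^ ℓ * ρ ^ ℓ with hEdef
  have hE : 0 ≤ E := by positivity
  have hlσ : 0 ≤ (ℓ : ℝ) * σ := by positivity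
  induction g generalizing z with
  | zero =>
    have h1 : A S ω 0 y z ≤ 1 := by
      unfold A
      rw [Finset.sum_filter]
      simp only [nd, Finset.sum_singleton]
      split_ifs
      · simp
      · norm_num
    rw [Nat.mul_zero, pow_zero, pow_zero, one_mul]
    linarith
  | succ g ih =>
    have hM : 0 ≤ T ^ (ℓ * g) * (2 * E + (ℓ * σ) ^ g) := by positivity
    have h1 := det_block S hS h0 hO hσ hT hρ hσ0 hT0 hΔ hM hℓ (ℓ * g) y (fun z => ih z) z
    rw [← hEdef] at h1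
    have h2 : ℓ * (g + 1) = ℓ * g + ℓ := by ring
    rw [h2]
    refine h1.trans ?_
    have hP : (0 : ℝ) ≤ T ^ (ℓ * g) := by positivity
    have h3 : (1 : ℝ) ≤ T ^ ℓ := one_le_pow₀ hT1
    have h4 : T ^ (ℓ - 1) ≤ T ^ ℓ := pow_le_pow_right₀ hT1 (by omega)
    have hg : (0 : ℝ) ≤ (ℓ * σ) ^ g := by positivity
    have h5 : E * T ^ (ℓ * g) ≤ T ^ ℓ * (E * T ^ (ℓ * g)) :=
      le_mul_of_one_le_left (by positivity) h3
    have h6 : ℓ * σ * T ^ (ℓ - 1) * (T ^ (ℓ * g) * (2 * E + (ℓ * σ) ^ g)) ≤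
        ℓ * σ * T ^ ℓ * (T ^ (ℓ * g) * (2 * E + (ℓ * σ) ^ g)) := by
      refine mul_le_mul_of_nonneg_right ?_ hM
      exact mul_le_mul_of_nonneg_left h4 hlσ
    have h7 : T ^ (ℓ * g + ℓ) * (2 * E + (ℓ * σ) ^ (g + 1)) -
        (T ^ ℓ * (E * T ^ (ℓ * g)) +
          ℓ * σ * T ^ ℓ * (T ^ (ℓ * g) * (2 * E + (ℓ * σ) ^ g))) =
        T ^ (ℓ * g) * T ^ ℓ * (E * (1 - 2 * ℓ * σ)) := by
      rw [pow_add, pow_succ]
      ring
    have h8 : 0 ≤ T ^ (ℓ * g) * T ^ ℓ * (E * (1 - 2 * ℓ * σ)) := by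
      have : 0 ≤ 1 - 2 * ℓ * σ := by linarith
      positivity
    linarith

end RP60
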