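import Pool.Agent.RP61.Rec2
import Pool.Agent.RP60.Fin

/-!
Two-sided extension, second version.
-/

namespace RP60

open Finset RP97

variable {V : Type*} {k : ℕ} (S : Sys V k) [Fintype V] [DecidableEq V]

/-- Simple consequences. -/
theorem fin_par2 {ℓ n b B q t : ℕ} {Δ : ℝ} (P : Par2 k ℓ n b B q t Δ) :
    ℓ * (n + 1) ≤ t ∧ 2 ≤ t ∧ t + 1 ≤ q ∧ 1 ≤ q ∧ 1 ≤ k ∧ 4 * q ≤ k ∧
      ℓ * (n + 1) + q ≤ k ∧ 0 ≤ Δ := by
  have h1 := P.ht2
  have h2 := P.hq1
  have h3 := P.hq3
  have hh := P.hh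
  have h4 : ℓ * (n + 1) ≤ 2 * (ℓ * (n + 1)) ^ 2 := by nlinarith
  have h5 : 2 ≤ t := by omega
  have h6 : t ≤ t ^ 4 := by
    calc t = t ^ 1 := (pow_one t).symm
      _ ≤ t ^ 4 := Nat.pow_le_pow_right (by omega) (by norm_num)
  have h7 : (0 : ℝ) ≤ ((ℓ * (n + 1) : ℕ) : ℝ) / k := by positivity
  exact ⟨by omega, h5, by omega, by omega, by omega, by omega, by omega, h7.trans P.hΔ⟩

/-- Closed walks of length `k - s` with `s` not very small. -/
theorem closed_long2 {ℓ n b B q t : ℕ} {Δ : ℝ} (P : Par2 k ℓ n b B q t Δ) (hS : CodL S ℓ Δ)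
    [Nonempty V] {s : ℕ} (hs : t ≤ s) (hs' : s + 2 ≤ 2 * q) :
    Pr (fun x l => En S (k - 2 * q) x l ∧ S.ep l x = x) (k - s) ≤
      (72 * Δ / (k : ℝ) + 1 / (k : ℝ) ^ 2) * sa S (k - 2 * q) := by
  obtain ⟨p1, p2, p3, p4, p5, p6, p7, p8⟩ := fin_par2 P
  have hk0 : (0 : ℝ) < k := by exact_mod_cast p5
  have hht2 := P.ht2
  have hh3 := P.hh
  obtain ⟨h, hh⟩ : ∃ h, h = ℓ * (n + 1) := ⟨_, rfl⟩
  rw [← hh] at p1 p7 hht2 hh3
  set m := k - 2 * q with hm
  set τ := k - s - h with hτ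
  have e1 : k - s = τ + h := by omega
  have e2 : τ + (s + h) = k := by omega
  have hmt : m + t ≤ k := by omega
  have hsa0 : 0 ≤ sa S m := Pr_nonneg _ _
  have h1 : Pr (fun x l => En S m x l ∧ S.ep l x = x) (k - s) ≤
      Pr (fun x l => En S m x (l.drop h) ∧ S.ep l x = x) (τ + h) := by
    rw [e1]
    exact Pr_mono fun x l _ h => ⟨fin_En_drop S _ h.1, h.2⟩
  have hr2 : 2 * h ^ 2 ≤ s + h := by omega
  have h2 := clo_closed S (E := En S m) (h := h) (r := s + h) (τ := τ)
    (K := 18 * Δ / (k : ℝ)) (by positivity) e2 (by omega) hr2 (by omega)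
  -- irregular pools
  have h3 : Pr (fun x l => En S m x l ∧
      ¬ Good S (18 * Δ / (k : ℝ)) h (s + h) x l.toFinset) τ ≤
      sa S m / (k : ℝ) ^ 2 := by
    have h4 := irr_long2 S P hS (E := En S m) (fun x c l h => fin_En_cons S h)
      (r := s + h) (by omega) (by omega) (α := sa S m) hsa0 ?_
    · have e3 : k - (s + h) = τ := by omega
      rwa [e3, ← hh] at h4
    · intro r' hr' hrk'
      rw [fin_Pr_En S (by omega)]
      have hX : (0 : ℝ) ≤ 200 * Δ := by positivity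
      rcases Nat.lt_or_ge m (k - r') with hc | hc
      · rw [Nat.min_eq_left hc.le]
        have h5 : (1 : ℝ) ≤ Real.exp (200 * Δ * r' + 1) :=
          Real.one_le_exp (by positivity)
        nlinarith
      · rw [Nat.min_eq_right hc]
        refine (sa_ratio2' S P hS hc hmt).trans (mul_le_mul_of_nonneg_left ?_ hsa0)
        apply Real.exp_le_exp.2
        have h6 : ((m : ℕ) : ℝ) - ((k - r' : ℕ) : ℝ) ≤ r' := by
          have h7 : m ≤ (k - r') + r' := by omega
          have h8 : ((m : ℕ) : ℝ) ≤ ((k - r' : ℕ) : ℝ) + r' := by exact_mod_cast h7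
          linarith
        have h9 := mul_le_mul_of_nonneg_left h6 hX
        linarith
  -- survival
  have h4 : Pr (En S m) τ ≤ 2 * sa S m := by
    rw [fin_Pr_En S (by omega)]
    have hc : min m τ ≤ m := Nat.min_le_left _ _
    refine (sa_ratio2' S P hS hc hmt).trans ?_
    have h5 : 200 * Δ * (((m : ℕ) : ℝ) - ((min m τ : ℕ) : ℝ)) + 1 / 4 ≤ 1 / 2 := by
      have h6 : ((m : ℕ) : ℝ) - ((min m τ : ℕ) : ℝ) ≤ q := by
        have h7 : m ≤ min m τ + q := by
          have : min m τ = m ∨ min m τ = τ := by omega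
          omega
        have h8 : ((m : ℕ) : ℝ) ≤ ((min m τ : ℕ) : ℝ) + q := by exact_mod_cast h7
        linarith
      have h9 := P.hq2
      have h10 : 200 * Δ * (((m : ℕ) : ℝ) - ((min m τ : ℕ) : ℝ)) ≤
          200 * Δ * (q : ℝ) := mul_le_mul_of_nonneg_left h6 (by positivity)
      linarith
    have h6 : Real.exp (200 * Δ * (((m : ℕ) : ℝ) - ((min m τ : ℕ) : ℝ)) + 1 / 4) ≤
        2 := by
      refine (Real.exp_le_exp.2 h5).trans ?_
      have h7 : Real.exp (1 / 2) ^ 2 = Real.exp 1 := by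
        rw [← Real.exp_nat_mul]
        norm_num
      have h8 := Real.exp_one_lt_d9
      nlinarith [Real.exp_pos (1 / 2)]
    nlinarith
  refine h1.trans (h2.trans ?_)
  have h5 : 2 * (18 * Δ / (k : ℝ)) * Pr (En S m) τ ≤
      2 * (18 * Δ / (k : ℝ)) * (2 * sa S m) := mul_le_mul_of_nonneg_left h4 (by positivity)
  calc _ ≤ 2 * (18 * Δ / (k : ℝ)) * (2 * sa S m) + sa S m / (k : ℝ) ^ 2 := add_le_add h5 h3
    _ = _ := by ring

/-- Closed walks using nearly all colours. -/
theorem closed_short2 {ℓ n b B q t : ℕ} {Δ : ℝ} (P : Par2 k ℓ n b B q t Δ) [Nonempty V] {s : ℕ}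
    (hs : 1 ≤ s) (hs' : s ≤ t) :
    Pr (fun x l => En S (k - 2 * q) x l ∧ S.ep l x = x) (k - s) ≤
      √(2 / (q : ℝ)) * sa S (k - 2 * q) := by
  obtain ⟨p1, p2, p3, p4, p5, p6, p7, p8⟩ := fin_par2 P
  set m := k - 2 * q with hm
  have e1 : k - s = m + (2 * q - s) := by omega
  have e2 : k - m = 2 * q := by omega
  have h1 := Pr_step (V := V) (k := k) (P := fun x l => (S.verts l x).Nodup)
    (Q := fun x u l => S.ep u (S.ep l x) = x) (t := m) (j := 2 * q - s) (by omega)
    (β := √(2 / (q : ℝ))) (Real.sqrt_nonneg _) ?_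
  · rw [e1]
    refine le_trans (Pr_mono fun x l hl h => ?_) h1
    have e3 : l.length - m = 2 * q - s := by rw [(mem_nd.1 hl).1]; omega
    obtain ⟨h2, h3⟩ := h
    unfold En at h2
    rw [e3] at h2
    refine ⟨h2, ?_⟩
    rw [← ep_append, List.take_append_drop]
    exact h3
  · intro x l hl _ F hF
    have hcard : l.toFinset.card + 2 * q = k := by
      rw [List.toFinset_card_of_nodup (mem_nd.1 hl).2.1, (mem_nd.1 hl).1]
      omega
    rw [e2]
    refine le_trans ?_ (typ S hs (by omega : s + 1 ≤ q) hcard (S.ep l x) x)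
    have : F ⊆ (nd l.toFinset (2 * q - s)).filter (fun w => S.ep w (S.ep l x) = x) := by
      intro u hu
      exact mem_filter.2 (hF u hu)
    exact_mod_cast card_le_card this

theorem exists_path2 {ℓ n b B q t : ℕ} {Δ : ℝ} (P : Par2 k ℓ n b B q t Δ) (hS : CodL S ℓ Δ)
    [Nonempty V] : ∃ x, ∃ l ∈ nd (∅ : Finset (Fin k)) (k - 1), (S.verts l x).Nodup := by
  obtain ⟨p1, p2, p3, p4, p5, p6, p7, p8⟩ := fin_par2 P
  have hk0 : (0 : ℝ) < k := by exact_mod_cast p5
  have hq0 : (0 : ℝ) < q := by exact_mod_cast p4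
  set m := k - 2 * q with hm
  have ha := (sa_ratio2 S P hS (j := m) (by omega)).1
  have h1 := full_ge S (q := q) (by omega) p4
  have h2 := sa_last2 S P hS (j := k - 1 - q) (by omega) (by omega)
  have h3 := sa_last2 S P hS (j := k - q) (by omega) (by omega)
  rw [← hm] at h1 h2 h3
  set c1 : ℝ := 72 * Δ / (k : ℝ) + 1 / (k : ℝ) ^ 2 with hc1
  set c2 : ℝ := √(2 / (q : ℝ)) with hc2
  have hc1' : 0 ≤ c1 := by positivity
  have hc2' : 0 ≤ c2 := Real.sqrt_nonneg _
  -- the sum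
  have h4 : ∑ i ∈ range (q - 1), ∑ j ∈ Ico (k - q) k,
        Pr (fun x l => En S m x l ∧ S.ep l x = x) (j - i) ≤
      (((q : ℝ) ^ 2) * c1 + (t : ℝ) ^ 2 * c2) * sa S m := by
    rw [← Finset.sum_product']
    have h5 : ∀ p ∈ range (q - 1) ×ˢ Ico (k - q) k,
        Pr (fun x l => En S m x l ∧ S.ep l x = x) (p.2 - p.1) ≤
          c1 * sa S m + (if k - p.2 + p.1 < t then c2 * sa S m else 0) := by
      rintro ⟨i, j⟩ hp
      simp only [mem_product, mem_range, mem_Ico] at hp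
      obtain ⟨hi, hj1, hj2⟩ := hp
      simp only
      obtain ⟨s, hs⟩ : ∃ s, s = k - j + i := ⟨_, rfl⟩
      have e1 : j - i = k - s := by omega
      rw [e1, ← hs]
      by_cases hst : s < t
      · rw [if_pos hst]
        have := closed_short2 S P (s := s) (by omega) hst.le
        have h6 : 0 ≤ c1 * sa S m := by positivity
        linarith
      · rw [if_neg hst, add_zero]
        exact closed_long2 S P hS (s := s) (by omega) (by omega)
    refine (Finset.sum_le_sum h5).trans ?_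
    rw [Finset.sum_add_distrib, Finset.sum_const, ← Finset.sum_filter, Finset.sum_const]
    have h7 : ((range (q - 1) ×ˢ Ico (k - q) k).card : ℝ) ≤ (q : ℝ) ^ 2 := by
      rw [card_product, card_range, Nat.card_Ico]
      have : (q - 1) * (k - (k - q)) ≤ q ^ 2 := by
        rw [pow_two]
        exact Nat.mul_le_mul (by omega) (by omega)
      exact_mod_cast this
    have h8 : (((range (q - 1) ×ˢ Ico (k - q) k).filter
        (fun p : ℕ × ℕ => k - p.2 + p.1 < t)).card : ℝ) ≤ (t : ℝ) ^ 2 := by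
      have h9 : ((range (q - 1) ×ˢ Ico (k - q) k).filter
        (fun p : ℕ × ℕ => k - p.2 + p.1 < t)).card ≤ (range t ×ˢ range t).card := by
        apply Finset.card_le_card_of_injOn (fun p => (p.1, k - p.2))
        · rintro ⟨i, j⟩ hp
          simp only [coe_filter, mem_product, mem_range, mem_Ico, Set.mem_ofPred_eq] at hp
          simp only [coe_product, Set.mem_prod, mem_coe, mem_range]
          omega
        · rintro ⟨i, j⟩ hp ⟨i', j'⟩ hp' he
          simp only [coe_filter, mem_product, mem_range, mem_Ico, Set.mem_ofPred_eq] at hp hp'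
          simp only [Prod.mk.injEq] at he
          simp only [Prod.mk.injEq]
          omega
      rw [card_product, card_range, ← pow_two] at h9
      exact_mod_cast h9
    rw [nsmul_eq_mul, nsmul_eq_mul]
    have h10 : 0 ≤ c1 * sa S m := by positivity
    have h11 : 0 ≤ c2 * sa S m := by positivity
    calc _ ≤ (q : ℝ) ^ 2 * (c1 * sa S m) + (t : ℝ) ^ 2 * (c2 * sa S m) :=
          add_le_add (mul_le_mul_of_nonneg_right h7 h10) (mul_le_mul_of_nonneg_right h8 h11)
      _ = _ := by ring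
  -- the constants
  have h5 : (q : ℝ) ^ 2 * c1 ≤ 1 / 8 := by
    have e1 := P.hq2
    have e2 : ((64 * q : ℕ) : ℝ) ≤ (k : ℝ) := by exact_mod_cast P.hq3
    push_cast at e2
    have e3 : (q : ℝ) / k ≤ 1 / 64 := by rw [div_le_iff₀ hk0]; linarith
    have e4 : Δ * q ≤ 1 / 3200 := by linarith
    have e5 : 0 ≤ (q : ℝ) / k := by positivity
    have e6 : 0 ≤ Δ * q := by positivity
    have e7 : (q : ℝ) ^ 2 * c1 = 72 * (Δ * q) * ((q : ℝ) / k) +
        ((q : ℝ) / k) * ((q : ℝ) / k) := by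
      rw [hc1]
      field_simp
    rw [e7]
    nlinarith
  have h6 : (t : ℝ) ^ 2 * c2 ≤ 1 / 32 := by
    have e1 : ((2048 * t ^ 4 : ℕ) : ℝ) ≤ (q : ℝ) := by exact_mod_cast P.hq1
    push_cast at e1
    have ht0 : (0 : ℝ) < t := by
      have : 0 < t := by omega
      exact_mod_cast this
    have e2 : c2 ≤ 1 / (32 * (t : ℝ) ^ 2) := by
      rw [hc2]
      apply Real.sqrt_le_iff.2
      refine ⟨by positivity, ?_⟩
      rw [div_pow, one_pow, div_le_div_iff₀ hq0 (by positivity)]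
      have e3 : (32 * (t : ℝ) ^ 2) ^ 2 = 1024 * (t : ℝ) ^ 4 := by ring
      rw [e3]
      linarith
    calc (t : ℝ) ^ 2 * c2 ≤ (t : ℝ) ^ 2 * (1 / (32 * (t : ℝ) ^ 2)) :=
          mul_le_mul_of_nonneg_left e2 (by positivity)
      _ = 1 / 32 := by field_simp
  have h7 : (((q : ℝ) ^ 2) * c1 + (t : ℝ) ^ 2 * c2) * sa S m ≤ 1 / 4 * sa S m :=
    mul_le_mul_of_nonneg_right (by linarith) ha.le
  have h8 : 0 < sa S (k - 1) := by linarith
  exact exists_of_Pr_pos h8

end RP60
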