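import Pool.Agent.RP61.Def2

/-!
Choice of the parameters for large `k`, third version.
-/

namespace RP60

open Finset RP97 Filter

private theorem num3_pow (A e : ℕ) : ∃ N : ℕ, ∀ n ≥ N, A * n ^ e ≤ 2 ^ n := by
  have h := tendsto_pow_const_div_const_pow_of_one_lt e (r := (2 : ℝ)) (by norm_num)
  have h2 : ∀ᶠ n : ℕ in atTop, (n : ℝ) ^ e / 2 ^ n < 1 / ((A : ℝ) + 1) :=
    h.eventually (gt_mem_nhds (by positivity))
  obtain ⟨N, hN⟩ := eventually_atTop.1 h2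
  refine ⟨N, fun n hn => ?_⟩
  have h3 := hN n hn
  have hA : (0 : ℝ) < (A : ℝ) + 1 := by positivity
  rw [div_lt_div_iff₀ (by positivity) hA, one_mul] at h3
  have h4 : (A : ℝ) * (n : ℝ) ^ e ≤ 2 ^ n := by
    have : 0 ≤ (n : ℝ) ^ e := by positivity
    nlinarith
  exact_mod_cast h4

private theorem num3_log {k n : ℕ} (hk : 2 ^ n ≤ k) : (2 / 3 : ℝ) * n ≤ Real.log k := by
  have h1 : (2 : ℝ) / 3 ≤ Real.log 2 := by
    have := Real.log_two_gt_d9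
    linarith
  have h2 : Real.log ((2 : ℝ) ^ n) ≤ Real.log k := by
    apply Real.log_le_log (by positivity)
    exact_mod_cast hk
  rw [Real.log_pow] at h2
  have h3 : (0 : ℝ) ≤ n := Nat.cast_nonneg n
  nlinarith

theorem exists_par3 : ∃ k₀ : ℕ, ∀ k ≥ k₀, ∀ ℓ : ℕ, 1 ≤ ℓ → ℓ ^ 14 ≤ k →
    ∃ n b B q t : ℕ, ∃ Δ : ℝ, 1 / ((ℓ : ℝ) ^ 12 * (Real.log k) ^ 35) ≤ Δ ∧
      Par2 k ℓ n b B q t Δ := by
  obtain ⟨N, hN⟩ := num3_pow (2 ^ 14) (35 * 14)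
  refine ⟨2 ^ (max N 2000000), fun k hk ℓ hℓ hℓk => ?_⟩
  set n := Nat.log 2 k with hn
  have hk0 : k ≠ 0 := by
    intro h
    rw [h] at hk
    have : 0 < 2 ^ (max N 2000000) := by positivity
    omega
  have hnk : 2 ^ n ≤ k := Nat.pow_log_le_self 2 hk0
  have hkn : k < 2 ^ (n + 1) := Nat.lt_pow_succ_log_self (by norm_num) k
  have hnbig : max N 2000000 ≤ n := (Nat.le_log_iff_pow_le (by norm_num) hk0).2 hk
  have hnN : N ≤ n := (le_max_left _ _).trans hnbig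
  have hn2 : 2000000 ≤ n := (le_max_right _ _).trans hnbig
  have hpow := hN n hnN
  clear_value n
  have hn1 : n + 1 ≤ 2 * n := by omega
  -- the main size estimate
  have hmain : ℓ ^ 13 * ((n + 1) * n ^ 34) ≤ k := by
    have h1 : ((n + 1) * n ^ 34) ^ 14 ≤ k := by
      calc ((n + 1) * n ^ 34) ^ 14 ≤ (2 * n * n ^ 34) ^ 14 := by gcongr
        _ = 2 ^ 14 * n ^ (35 * 14) := by ring
        _ ≤ 2 ^ n := hpow
        _ ≤ k := hnk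
    have h2 : (ℓ ^ 13 * ((n + 1) * n ^ 34)) ^ 14 ≤ k ^ 14 := by
      calc (ℓ ^ 13 * ((n + 1) * n ^ 34)) ^ 14
          = (ℓ ^ 14) ^ 13 * ((n + 1) * n ^ 34) ^ 14 := by ring
        _ ≤ k ^ 13 * k := by gcongr
        _ = k ^ 14 := by ring
    exact le_of_pow_le_pow_left₀ (by norm_num) (Nat.zero_le _) h2
  have hn0 : 0 < n := by omega
  have hℓ12 : 1 ≤ ℓ ^ 12 := Nat.one_le_pow _ _ hℓ
  have hℓ13 : ℓ ^ 12 ≤ ℓ ^ 13 := Nat.pow_le_pow_right hℓ (by norm_num)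
  have hnR : (0 : ℝ) < n := by exact_mod_cast hn0
  have hℓR : (0 : ℝ) < ℓ := by exact_mod_cast hℓ
  have hℓR1 : (1 : ℝ) ≤ ℓ := by exact_mod_cast hℓ
  have hkR : (0 : ℝ) < k := by exact_mod_cast Nat.pos_of_ne_zero hk0
  refine ⟨n, n ^ 4 * ℓ, n ^ 5 * ℓ ^ 2, n ^ 33 * ℓ ^ 12, n ^ 8 * ℓ ^ 3,
    1 / ((n : ℝ) ^ 34 * (ℓ : ℝ) ^ 12), ?_, ?_⟩
  · apply one_div_le_one_div_of_le (by positivity)
    have h1 := num3_log hnk
    have h2 : ((2 / 3 : ℝ) * n) ^ 35 ≤ Real.log k ^ 35 := by gcongr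
    have h3 : (n : ℝ) ^ 34 ≤ ((2 / 3 : ℝ) * n) ^ 35 := by
      have h4 : ((2 / 3 : ℝ) * n) ^ 35 = ((2 / 3 : ℝ) ^ 35 * n) * (n : ℝ) ^ 34 := by ring
      rw [h4]
      have h5 : (1 : ℝ) ≤ (2 / 3 : ℝ) ^ 35 * n := by
        have h6 : (2000000 : ℝ) ≤ n := by exact_mod_cast hn2
        have h7 : (1 : ℝ) ≤ (2 / 3 : ℝ) ^ 35 * 2000000 := by norm_num
        have h8 : (0 : ℝ) < (2 / 3 : ℝ) ^ 35 := by positivity
        nlinarith
      have h9 : (0 : ℝ) ≤ (n : ℝ) ^ 34 := by positivity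
      nlinarith
    have h10 : (n : ℝ) ^ 34 ≤ Real.log k ^ 35 := h3.trans h2
    have h11 : (0 : ℝ) ≤ (ℓ : ℝ) ^ 12 := by positivity
    nlinarith
  · constructor
    · omega
    · exact hkn
    · exact hℓ
    · nlinarith
    · rw [div_le_div_iff₀ hkR (by positivity)]
      have h1 : ((ℓ ^ 13 * ((n + 1) * n ^ 34) : ℕ) : ℝ) ≤ k := by exact_mod_cast hmain
      have h2 : ((ℓ * (n + 1) : ℕ) : ℝ) * ((n : ℝ) ^ 34 * (ℓ : ℝ) ^ 12)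
          = ((ℓ ^ 13 * ((n + 1) * n ^ 34) : ℕ) : ℝ) := by
        push_cast
        ring
      rw [h2, one_mul]
      exact h1
    · calc 8 * n * (n + 1) * (ℓ * (n + 1)) ≤ 8 * n * (2 * n) * (ℓ * (2 * n)) := by gcongr
        _ = 32 * (n ^ 3 * ℓ) := by ring
        _ ≤ n * (n ^ 3 * ℓ) := by gcongr; omega
        _ = n ^ 4 * ℓ := by ring
    · calc 2 * n ^ 2 * (ℓ * (n + 1)) ^ 2 ≤ 2 * n ^ 2 * (ℓ * (2 * n)) ^ 2 := by gcongr
        _ = 8 * (n ^ 4 * ℓ ^ 2) := by ring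
        _ ≤ n * (n ^ 4 * ℓ ^ 2) := by gcongr; omega
        _ = n ^ 5 * ℓ ^ 2 := by ring
    · calc 4 * 2592 * (ℓ * (n + 1)) * n ^ 2 * (n + 2)
          ≤ 4 * 2592 * (ℓ * (2 * n)) * n ^ 2 * (2 * n) := by gcongr; omega
        _ = 41472 * (n ^ 4 * (ℓ * 1)) := by ring
        _ ≤ n * (n ^ 4 * (ℓ * ℓ)) := by gcongr; omega
        _ = n ^ 5 * ℓ ^ 2 := by ring
    · calc 8 * ℓ * n ^ 2 * (ℓ * (n + 1)) ≤ 8 * ℓ * n ^ 2 * (ℓ * (2 * n)) := by gcongr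
        _ = 16 * (1 * (n ^ 3 * ℓ ^ 2)) := by ring
        _ ≤ n * (n * (n ^ 3 * ℓ ^ 2)) := by gcongr <;> omega
        _ = n ^ 5 * ℓ ^ 2 := by ring
    · have h1 : 3200 * (1 / ((n : ℝ) ^ 34 * (ℓ : ℝ) ^ 12)) * ((n ^ 4 * ℓ * (n ^ 5 * ℓ ^ 2) : ℕ) : ℝ)
          = 3200 / ((n : ℝ) ^ 25 * (ℓ : ℝ) ^ 9) := by
        push_cast
        field_simp
      rw [h1, div_le_one (by positivity)]
      have h2 : (3200 : ℝ) ≤ n := by
        have : (2000000 : ℝ) ≤ n := by exact_mod_cast hn2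
        linarith
      have h3 : (n : ℝ) ≤ (n : ℝ) ^ 25 := le_self_pow₀ (by linarith) (by norm_num)
      have h4 : (1 : ℝ) ≤ (ℓ : ℝ) ^ 9 := one_le_pow₀ hℓR1
      have h5 : (0 : ℝ) ≤ (n : ℝ) ^ 25 := by positivity
      nlinarith
    · calc 2 * (n ^ 5 * ℓ ^ 2) * (2 * (n + 1) * (ℓ * (n + 1)) + 1)
          ≤ 2 * (n ^ 5 * ℓ ^ 2) * (2 * (2 * n) * (ℓ * (2 * n)) + n * (ℓ * n)) := by
            gcongr
            nlinarith [Nat.mul_pos hn0 (Nat.mul_pos (by omega : 0 < ℓ) hn0)]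
        _ = 18 * (1 * (n ^ 7 * ℓ ^ 3)) := by ring
        _ ≤ n * (1 * (n ^ 7 * ℓ ^ 3)) := by gcongr; omega
        _ = n ^ 8 * ℓ ^ 3 := by ring
    · calc 2 * (ℓ * (n + 1)) ^ 2 ≤ 2 * (ℓ * (2 * n)) ^ 2 := by gcongr
        _ = 8 * (1 * (n ^ 2 * (ℓ ^ 2 * 1))) := by ring
        _ ≤ n * (n ^ 5 * (n ^ 2 * (ℓ ^ 2 * ℓ))) := by
            gcongr
            · omega
            · exact Nat.one_le_pow _ _ hn0
        _ = n ^ 8 * ℓ ^ 3 := by ring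
    · calc 2048 * (n ^ 8 * ℓ ^ 3) ^ 4 = 2048 * (n ^ 32 * ℓ ^ 12) := by ring
        _ ≤ n * (n ^ 32 * ℓ ^ 12) := by gcongr; omega
        _ = n ^ 33 * ℓ ^ 12 := by ring
    · have h1 : 3200 * (1 / ((n : ℝ) ^ 34 * (ℓ : ℝ) ^ 12)) * ((n ^ 33 * ℓ ^ 12 : ℕ) : ℝ)
          = 3200 / (n : ℝ) := by
        push_cast
        field_simp
      rw [h1, div_le_one hnR]
      have : (2000000 : ℝ) ≤ n := by exact_mod_cast hn2
      linarith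
    · calc 64 * (n ^ 33 * ℓ ^ 12) ≤ (n + 1) * n * (n ^ 33 * ℓ ^ 13) := by
            gcongr
            nlinarith
        _ = ℓ ^ 13 * ((n + 1) * n ^ 34) := by ring
        _ ≤ k := hmain

end RP60
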