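import Pool.Agent.RP61.Irr2
import Pool.Agent.RP60.Rec

/-!
The probability that a random rainbow walk has no repeated vertex decreases slowly: second version.
-/

namespace RP60

open Finset RP97

variable {V : Type*} {k : ℕ} (S : Sys V k) [Fintype V] [DecidableEq V]

theorem par2_nat {ℓ n b B q t : ℕ} {Δ : ℝ} (P : Par2 k ℓ n b B q t Δ) :
    18 ≤ t ∧ t ≤ q ∧ 0 < B ∧ ℓ * (n + 1) ≤ b ∧ 0 < k ∧ ℓ * (n + 1) ≤ t := by
  obtain ⟨hn, hk, hℓ, hh, hΔ, hb, hB1, hB2, hB3, hX, ht1, ht2, hq1, hq2, hq3⟩ := P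
  have h1 : 18 ≤ t := by nlinarith
  have h2 : ℓ * (n + 1) ≤ t := by nlinarith
  have h3 : t ≤ q := by
    have : t ≤ t ^ 4 := Nat.le_self_pow (by norm_num) t
    omega
  have h4 : 0 < B := by
    have : 0 < 4 * 2592 * (ℓ * (n + 1)) * n ^ 2 * (n + 2) := by positivity
    omega
  have h5 : ℓ * (n + 1) ≤ b := by
    have : 1 * (ℓ * (n + 1)) ≤ 8 * n * (n + 1) * (ℓ * (n + 1)) := by
      apply Nat.mul_le_mul_right
      nlinarith
    omega
  exact ⟨h1, h3, h4, h5, by omega, h2⟩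

theorem par2_Δ {ℓ n b B q t : ℕ} {Δ : ℝ} (P : Par2 k ℓ n b B q t Δ) :
    0 ≤ Δ ∧ (ℓ * (n + 1) : ℝ) / k ≤ Δ ∧ 1 / (k : ℝ) ^ 2 ≤ Δ := by
  obtain ⟨h1, h2, h3, h4, h5, h6⟩ := par2_nat P
  have hk : (1 : ℝ) ≤ k := by exact_mod_cast h5
  have hk0 : (0 : ℝ) < k := by linarith
  have e1 : ((ℓ * (n + 1) : ℕ) : ℝ) = ℓ * (n + 1) := by push_cast; ring
  have e2 := P.hΔ
  have e3 : (3 : ℝ) ≤ ((ℓ * (n + 1) : ℕ) : ℝ) := by exact_mod_cast P.hh
  have e4 : 1 / (k : ℝ) ^ 2 ≤ ((ℓ * (n + 1) : ℕ) : ℝ) / k := by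
    rw [div_le_div_iff₀ (by positivity) hk0]
    nlinarith
  have e5 : (0 : ℝ) ≤ 1 / (k : ℝ) ^ 2 := by positivity
  refine ⟨by linarith, ?_, by linarith⟩
  rw [← e1]
  exact e2

/-- `X h ≤ 1 / 16`. -/
theorem par2_X {ℓ n b B q t : ℕ} {Δ : ℝ} (P : Par2 k ℓ n b B q t Δ) :
    200 * Δ * (ℓ * (n + 1)) ≤ 1 / 16 := by
  obtain ⟨h1, h2, h3, h4, h5, h6⟩ := par2_nat P
  obtain ⟨d1, d2, d3⟩ := par2_Δ P
  have h7 : ℓ * (n + 1) ≤ b * B := h4.trans (Nat.le_mul_of_pos_right b h3)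
  have h8 : (ℓ * (n + 1) : ℝ) ≤ ((b * B : ℕ) : ℝ) := by exact_mod_cast h7
  have h9 := P.hX
  have h10 : 3200 * Δ * (ℓ * (n + 1)) ≤ 3200 * Δ * ((b * B : ℕ) : ℝ) :=
    mul_le_mul_of_nonneg_left h8 (by positivity)
  linarith

/-- `X q ≤ 1 / 16`. -/
theorem par2_Xq {ℓ n b B q t : ℕ} {Δ : ℝ} (P : Par2 k ℓ n b B q t Δ) :
    200 * Δ * q ≤ 1 / 16 := by
  have h8 := P.hq2
  linarith

/-- `Y (n + 2) ≤ 1 / 4`. -/
theorem par2_Y {ℓ n b B q t : ℕ} {Δ : ℝ} (P : Par2 k ℓ n b B q t Δ) :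
    2592 * (ℓ * (n + 1)) * (n : ℝ) ^ 2 / B * (n + 2) ≤ 1 / 4 := by
  obtain ⟨h1, h2, h3, h4, h5, h6⟩ := par2_nat P
  have hB : (0 : ℝ) < B := by exact_mod_cast h3
  have h8 : (4 : ℝ) * 2592 * (ℓ * (n + 1)) * n ^ 2 * (n + 2) ≤ B := by exact_mod_cast P.hB2
  rw [div_mul_eq_mul_div, div_le_iff₀ (by positivity)]
  linarith

theorem par2_Y' {ℓ n b B q t : ℕ} {Δ : ℝ} (P : Par2 k ℓ n b B q t Δ) :
    2592 * (ℓ * (n + 1)) * (n : ℝ) ^ 2 / B ≤ 1 / 12 := by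
  have h1 := par2_Y P
  have h2 : (1 : ℝ) ≤ n := by exact_mod_cast P.hn
  have h3 : (0 : ℝ) ≤ 2592 * (ℓ * (n + 1)) * (n : ℝ) ^ 2 / B := by positivity
  nlinarith

/-- The sum is at most logarithmic. -/
theorem sum_log2 {ℓ n b B q t : ℕ} {Δ : ℝ} (P : Par2 k ℓ n b B q t Δ) {i j : ℕ} (hj : j ≤ k) :
    ∑ l ∈ Ico i j, 1 / ((k : ℝ) - l) ≤ n + 2 := by
  obtain ⟨h1, h2, h3, h4, h5, h6⟩ := par2_nat P
  have hk : (0 : ℝ) < k := by exact_mod_cast h5
  have e1 : ∑ l ∈ Ico i j, 1 / ((k : ℝ) - l) ≤ ∑ l ∈ range k, 1 / ((k : ℝ) - l) := by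
    apply sum_le_sum_of_subset_of_nonneg
    · intro l hl
      rw [mem_Ico] at hl
      rw [mem_range]
      omega
    · intro l hl _
      rw [mem_range] at hl
      have : (l : ℝ) ≤ k := by exact_mod_cast hl.le
      apply one_div_nonneg.2
      linarith
  have e2 : ∑ l ∈ range k, 1 / ((k : ℝ) - l) = (harmonic k : ℝ) := by
    rw [← sum_range_reflect, harmonic]
    push_cast
    apply sum_congr rfl
    intro l hl
    rw [mem_range] at hl
    have : ((k - 1 - l : ℕ) : ℝ) = (k : ℝ) - 1 - l := by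
      rw [Nat.cast_sub (by omega), Nat.cast_sub (by omega)]
      simp
    rw [this, one_div]
    congr 1
    ring
  have e3 := harmonic_le_one_add_log k
  have e4 : Real.log k ≤ n + 1 := by
    have f1 : Real.log k ≤ Real.log ((2 : ℝ) ^ (n + 1)) := by
      apply Real.log_le_log hk
      exact_mod_cast P.hk.le
    rw [Real.log_pow] at f1
    have f2 := Real.log_two_lt_d9
    have f3 : (0 : ℝ) ≤ ((n + 1 : ℕ) : ℝ) := by positivity
    have f4 : ((n + 1 : ℕ) : ℝ) = n + 1 := by push_cast; ring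
    rw [f4] at f1 f3
    nlinarith
  linarith

omit [DecidableEq V] in
/-- Comparison with a shorter walk. -/
theorem rec2_short {ℓ n b B q t : ℕ} {Δ : ℝ} (P : Par2 k ℓ n b B q t Δ) {j : ℕ}
    (hind : ∀ i ≤ j, sa S i ≤ sa S j * Real.exp (200 * Δ * ((j : ℝ) - i) + 1 / 4))
    {τ : ℕ} (hτ : τ ≤ j) (hτ' : j ≤ τ + ℓ * (n + 1)) : sa S τ ≤ 2 * sa S j := by
  obtain ⟨d1, d2, d3⟩ := par2_Δ P
  have h1 := hind τ hτ
  have h2 : Real.exp (200 * Δ * ((j : ℝ) - τ) + 1 / 4) ≤ 2 := by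
    apply exp_small
    have h3 : (200 * Δ * ((j : ℝ) - τ)) ≤ 200 * Δ * (ℓ * (n + 1)) := by
      apply mul_le_mul_of_nonneg_left _ (by positivity)
      have h4 : (j : ℝ) ≤ τ + (ℓ * (n + 1)) := by exact_mod_cast hτ'
      linarith
    have h5 := par2_X P
    linarith
  have h6 := rec_nonneg S j
  nlinarith

omit [DecidableEq V] in
/-- Hypothesis of the lemmas on irregular pools. -/
theorem rec2_hEα {Δ : ℝ} (hΔ : 0 ≤ Δ) {j : ℕ}
    (hind : ∀ i ≤ j, sa S i ≤ sa S j * Real.exp (200 * Δ * ((j : ℝ) - i) + 1 / 4))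
    {r : ℕ} (hjk : j ≤ k) (hr : k ≤ j + r) (r' : ℕ) (h1 : r ≤ r') (h2 : r' ≤ k) :
    Pr (fun x l => (S.verts l x).Nodup) (k - r') ≤
      sa S j * Real.exp (200 * Δ * r' + 1) := by
  have h3 := hind (k - r') (by omega)
  refine le_trans h3 ?_
  apply mul_le_mul_of_nonneg_left _ (rec_nonneg S j)
  apply Real.exp_le_exp.2
  have h4 : ((k - r' : ℕ) : ℝ) = (k : ℝ) - r' := Nat.cast_sub h2
  have h5 : (200 * Δ * ((j : ℝ) - (k - r' : ℕ))) ≤ 200 * Δ * r' := by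
    apply mul_le_mul_of_nonneg_left _ (by positivity)
    rw [h4]
    have h6 : (j : ℝ) ≤ k := by exact_mod_cast hjk
    linarith
  linarith

/-- Returns after many steps. -/
theorem rec2_A {ℓ n b B q t : ℕ} {Δ : ℝ} (P : Par2 k ℓ n b B q t Δ) (hS : CodL S ℓ Δ) {j : ℕ}
    (hj : j + 1 + t ≤ k)
    (hind : ∀ i ≤ j, sa S i ≤ sa S j * Real.exp (200 * Δ * ((j : ℝ) - i) + 1 / 4)) :
    Pr (fun x l => ℓ * (n + 1) ≤ j + 1 ∧ ((S.verts (l.drop (ℓ * (n + 1))) x).Nodup ∧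
        S.ep l x ∈ (S.verts (l.drop (ℓ * (n + 1))) x).toFinset)) (j + 1) ≤
      sa S j * (72 * Δ + 1 / (k : ℝ) ^ 2) := by
  obtain ⟨h1, h2, h3, h4, h5, h6⟩ := par2_nat P
  obtain ⟨d1, d2, d3⟩ := par2_Δ P
  have hk : (0 : ℝ) < k := by exact_mod_cast h5
  have h0 := rec_nonneg S j
  have hh3 := P.hh
  by_cases hh : ℓ * (n + 1) ≤ j + 1
  swap
  · have e1 : Pr (fun x l => ℓ * (n + 1) ≤ j + 1 ∧ ((S.verts (l.drop (ℓ * (n + 1))) x).Nodup ∧
        S.ep l x ∈ (S.verts (l.drop (ℓ * (n + 1))) x).toFinset)) (j + 1) ≤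
        Pr (V := V) (k := k) (fun _ _ => False) (j + 1) := by
      apply Pr_mono
      rintro x l _ ⟨h, -⟩
      exact hh h
    rw [rec_Pr_false] at e1
    refine e1.trans ?_
    positivity
  obtain ⟨τ, hτ⟩ := Nat.exists_eq_add_of_le hh
  have hτ' : j + 1 = τ + ℓ * (n + 1) := by omega
  have hsq : 2 * (ℓ * (n + 1)) ^ 2 ≤ t := P.ht2
  have e2 := clo_end S (E := fun x l => (S.verts l x).Nodup)
    (fun x l => (S.verts l x).toFinset) (N := k) (h := ℓ * (n + 1)) (r := k - τ) (τ := τ)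
    (K := 18 * Δ / (k : ℝ)) (by positivity) (by omega) (by omega) (by omega) (by omega)
    (by
      intro x l hl _
      obtain ⟨hlen, -, -⟩ := mem_nd.1 hl
      have := rec_card S l x
      omega)
  have e3 := rec_irr S (18 * Δ / (k : ℝ)) (ℓ * (n + 1)) (k - τ) τ
  have e4 := irr_long2 S P hS (E := fun x l => (S.verts l x).Nodup)
    (fun x c l h => (List.nodup_cons.1 h).2) (r := k - τ) (by omega) (by omega)
    (α := sa S j) h0 (rec2_hEα S d1 hind (by omega) (by omega))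
  rw [show k - (k - τ) = τ by omega] at e4
  have e5 : sa S τ ≤ 2 * sa S j := rec2_short S P hind (by omega) (by omega)
  have e6 : Pr (fun x l => ℓ * (n + 1) ≤ j + 1 ∧ ((S.verts (l.drop (ℓ * (n + 1))) x).Nodup ∧
        S.ep l x ∈ (S.verts (l.drop (ℓ * (n + 1))) x).toFinset)) (j + 1) ≤
      Pr (fun x l => ((S.verts (l.drop (ℓ * (n + 1))) x).Nodup ∧
        S.ep l x ∈ (S.verts (l.drop (ℓ * (n + 1))) x).toFinset)) (j + 1) := by
    apply Pr_mono
    rintro x l _ ⟨-, h⟩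
    exact h
  refine e6.trans ?_
  rw [hτ']
  refine e2.trans ?_
  rw [e3]
  have e7 : 2 * (k : ℝ) * (18 * Δ / (k : ℝ)) * sa S τ ≤ sa S j * (72 * Δ) := by
    have e8 : 2 * (k : ℝ) * (18 * Δ / (k : ℝ)) = 36 * Δ := by
      field_simp
      ring
    rw [e8]
    calc 36 * Δ * sa S τ ≤ 36 * Δ * (2 * sa S j) :=
          mul_le_mul_of_nonneg_left e5 (by positivity)
      _ = _ := by ring
  have e9 : sa S j * (72 * Δ + 1 / (k : ℝ) ^ 2) =
      sa S j * (72 * Δ) + sa S j / (k : ℝ) ^ 2 := by ring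
  rw [e9]
  exact add_le_add e7 e4

/-- Returns after few steps. -/
theorem rec2_B {ℓ n b B q t : ℕ} {Δ : ℝ} (P : Par2 k ℓ n b B q t Δ) {j : ℕ}
    (hj : j + 1 + t ≤ k)
    (hind : ∀ i ≤ j, sa S i ≤ sa S j * Real.exp (200 * Δ * ((j : ℝ) - i) + 1 / 4)) :
    Pr (fun x l => 3 ≤ j + 1 ∧ ((S.verts (l.drop 3) x).Nodup ∧
        S.ep l x ∈ ((S.verts (l.drop 3) x).take (ℓ * (n + 1))).toFinset)) (j + 1) ≤
      sa S j * (12 * Δ + 1 / (k : ℝ) ^ 2 +
        1296 * (ℓ * (n + 1)) * (n : ℝ) ^ 2 / B * (1 / ((k : ℝ) - j))) := by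
  obtain ⟨h1, h2, h3, h4, h5, h6⟩ := par2_nat P
  obtain ⟨d1, d2, d3⟩ := par2_Δ P
  have hk : (0 : ℝ) < k := by exact_mod_cast h5
  have hB : (0 : ℝ) < B := by exact_mod_cast h3
  have h0 := rec_nonneg S j
  have hh3 := P.hh
  have hkj : (0 : ℝ) < (k : ℝ) - j := by
    have : (j : ℝ) + 1 ≤ k := by
      have : j + 1 ≤ k := by omega
      exact_mod_cast this
    linarith
  by_cases hh : 3 ≤ j + 1
  swap
  · have e1 : Pr (fun x l => 3 ≤ j + 1 ∧ ((S.verts (l.drop 3) x).Nodup ∧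
        S.ep l x ∈ ((S.verts (l.drop 3) x).take (ℓ * (n + 1))).toFinset)) (j + 1) ≤
        Pr (V := V) (k := k) (fun _ _ => False) (j + 1) := by
      apply Pr_mono
      rintro x l _ ⟨h, -⟩
      exact hh h
    rw [rec_Pr_false] at e1
    refine e1.trans ?_
    positivity
  obtain ⟨τ, hτ⟩ := Nat.exists_eq_add_of_le hh
  have hτ' : j + 1 = τ + 3 := by omega
  have hKn : (0 : ℝ) ≤ 3 * (1 / (k : ℝ) + 108 * (n : ℝ) ^ 2 / (B * (k - τ : ℕ))) := by
    positivity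
  have e2 := clo_end S (E := fun x l => (S.verts l x).Nodup)
    (fun x l => ((S.verts l x).take (ℓ * (n + 1))).toFinset) (N := ℓ * (n + 1)) (h := 3)
    (r := k - τ) (τ := τ)
    (K := 3 * (1 / (k : ℝ) + 108 * (n : ℝ) ^ 2 / (B * (k - τ : ℕ)))) hKn
    (by omega) (by omega) (by omega) (by omega)
    (by
      intro x l hl _
      refine (List.toFinset_card_le _).trans ?_
      rw [List.length_take]
      exact min_le_left _ _)
  have e3 := rec_irr S (3 * (1 / (k : ℝ) + 108 * (n : ℝ) ^ 2 / (B * (k - τ : ℕ)))) 3 (k - τ) τ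
  have e4 := irr_three2 S P (E := fun x l => (S.verts l x).Nodup)
    (fun x c l h => (List.nodup_cons.1 h).2) (r := k - τ) (by omega) (by omega)
    (α := sa S j) h0 (rec2_hEα S d1 hind (by omega) (by omega))
  rw [show k - (k - τ) = τ by omega] at e4
  have e5 : sa S τ ≤ 2 * sa S j := rec2_short S P hind (by omega) (by omega)
  have e6 : Pr (fun x l => 3 ≤ j + 1 ∧ ((S.verts (l.drop 3) x).Nodup ∧
        S.ep l x ∈ ((S.verts (l.drop 3) x).take (ℓ * (n + 1))).toFinset)) (j + 1) ≤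
      Pr (fun x l => ((S.verts (l.drop 3) x).Nodup ∧
        S.ep l x ∈ ((S.verts (l.drop 3) x).take (ℓ * (n + 1))).toFinset)) (j + 1) := by
    apply Pr_mono
    rintro x l _ ⟨-, h⟩
    exact h
  refine e6.trans ?_
  rw [hτ']
  refine e2.trans ?_
  rw [e3]
  have hr : ((k - τ : ℕ) : ℝ) = (k : ℝ) - τ := Nat.cast_sub (by omega)
  have hτj : (τ : ℝ) ≤ j := by
    have : τ ≤ j := by omega
    exact_mod_cast this
  have e7 : 2 * ((ℓ * (n + 1) : ℕ) : ℝ) *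
      (3 * (1 / (k : ℝ) + 108 * (n : ℝ) ^ 2 / (B * (k - τ : ℕ)))) * sa S τ ≤
      sa S j * (12 * Δ +
        1296 * (ℓ * (n + 1)) * (n : ℝ) ^ 2 / B * (1 / ((k : ℝ) - j))) := by
    have c0 : ((ℓ * (n + 1) : ℕ) : ℝ) = ℓ * (n + 1) := by push_cast; ring
    rw [c0]
    have c1 : 12 * (ℓ * ((n : ℝ) + 1)) * (1 / (k : ℝ)) ≤ 12 * Δ := by
      have c2 : 12 * (ℓ * ((n : ℝ) + 1)) * (1 / (k : ℝ)) = 12 * (ℓ * ((n : ℝ) + 1) / k) := by ring
      rw [c2]
      linarith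
    have c4 : 12 * (ℓ * ((n : ℝ) + 1)) * (108 * (n : ℝ) ^ 2 / (B * (k - τ : ℕ))) ≤
        1296 * (ℓ * (n + 1)) * (n : ℝ) ^ 2 / B * (1 / ((k : ℝ) - j)) := by
      have c5 : 12 * (ℓ * ((n : ℝ) + 1)) * (108 * (n : ℝ) ^ 2 / (B * (k - τ : ℕ))) =
          1296 * (ℓ * (n + 1)) * (n : ℝ) ^ 2 / B * (1 / ((k - τ : ℕ) : ℝ)) := by
        rw [mul_div_assoc', mul_one_div, div_div]
        congr 1
        ring
      rw [c5, hr]
      apply mul_le_mul_of_nonneg_left _ (by positivity)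
      apply one_div_le_one_div_of_le hkj
      linarith
    calc 2 * (ℓ * ((n : ℝ) + 1)) *
        (3 * (1 / (k : ℝ) + 108 * (n : ℝ) ^ 2 / (B * (k - τ : ℕ)))) * sa S τ
        ≤ 2 * (ℓ * ((n : ℝ) + 1)) *
        (3 * (1 / (k : ℝ) + 108 * (n : ℝ) ^ 2 / (B * (k - τ : ℕ)))) * (2 * sa S j) :=
          mul_le_mul_of_nonneg_left e5 (by positivity)
      _ = sa S j * (12 * (ℓ * ((n : ℝ) + 1)) * (1 / (k : ℝ)) +
        12 * (ℓ * ((n : ℝ) + 1)) * (108 * (n : ℝ) ^ 2 / (B * (k - τ : ℕ)))) := by ring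
      _ ≤ _ := mul_le_mul_of_nonneg_left (add_le_add c1 c4) h0
  have e9 : sa S j * (12 * Δ + 1 / (k : ℝ) ^ 2 +
        1296 * (ℓ * (n + 1)) * (n : ℝ) ^ 2 / B * (1 / ((k : ℝ) - j))) =
      sa S j * (12 * Δ +
        1296 * (ℓ * (n + 1)) * (n : ℝ) ^ 2 / B * (1 / ((k : ℝ) - j))) + sa S j / (k : ℝ) ^ 2 := by
    ring
  rw [e9]
  exact add_le_add e7 e4

/-- One step. -/
theorem sa_loss2 {ℓ n b B q t : ℕ} {Δ : ℝ} (P : Par2 k ℓ n b B q t Δ) (hS : CodL S ℓ Δ)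
    [Nonempty V] {j : ℕ} (hj : j + 1 + t ≤ k)
    (hind : ∀ i ≤ j, sa S i ≤ sa S j * Real.exp (200 * Δ * ((j : ℝ) - i) + 1 / 4)) :
    sa S j - sa S (j + 1) ≤ sa S j * (100 * Δ +
      1296 * (ℓ * (n + 1)) * (n : ℝ) ^ 2 / B * (1 / ((k : ℝ) - j))) := by
  obtain ⟨d1, d2, d3⟩ := par2_Δ P
  have h0 := rec_nonneg S j
  have hh3 := P.hh
  have e1 := rec_diff S (j := j) (by omega)
  have e2 := rec_split S (h := ℓ * (n + 1)) (by omega) j
  have e3 := rec2_A S P hS hj hind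
  have e4 := rec2_B S P hj hind
  refine (e1.trans e2).trans ((add_le_add e3 e4).trans ?_)
  rw [← mul_add]
  apply mul_le_mul_of_nonneg_left _ h0
  linarith

theorem sa_ratio2 {ℓ n b B q t : ℕ} {Δ : ℝ} (P : Par2 k ℓ n b B q t Δ) (hS : CodL S ℓ Δ)
    [Nonempty V] {j : ℕ} (hj : j + t ≤ k) :
    0 < sa S j ∧ ∀ i ≤ j, sa S i ≤ sa S j * Real.exp (200 * Δ * ((j : ℝ) - i) +
      2592 * (ℓ * (n + 1)) * (n : ℝ) ^ 2 / B * ∑ l ∈ Ico i j, 1 / ((k : ℝ) - l)) := by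
  obtain ⟨h1, h2, h3, h4, h5, h6⟩ := par2_nat P
  obtain ⟨d1, d2, d3⟩ := par2_Δ P
  have hk : (0 : ℝ) < k := by exact_mod_cast h5
  have hB : (0 : ℝ) < B := by exact_mod_cast h3
  induction j with
  | zero =>
    refine ⟨by rw [sa_zero]; norm_num, ?_⟩
    intro i hi
    obtain rfl : i = 0 := by omega
    simp
  | succ j ih =>
    obtain ⟨ih1, ih2⟩ := ih (by omega)
    have hind : ∀ i ≤ j, sa S i ≤
        sa S j * Real.exp (200 * Δ * ((j : ℝ) - i) + 1 / 4) := by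
      intro i hi
      refine (ih2 i hi).trans ?_
      apply mul_le_mul_of_nonneg_left _ ih1.le
      apply Real.exp_le_exp.2
      have e1 := sum_log2 P (i := i) (j := j) (by omega)
      have e2 := par2_Y P
      have e3 : 2592 * (ℓ * (n + 1)) * (n : ℝ) ^ 2 / B * ∑ l ∈ Ico i j, 1 / ((k : ℝ) - l) ≤
          2592 * (ℓ * (n + 1)) * (n : ℝ) ^ 2 / B * (n + 2) :=
        mul_le_mul_of_nonneg_left e1 (by positivity)
      linarith
    have e1 := sa_loss2 S P hS (j := j) (by omega) hind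
    have hkj : (1 : ℝ) ≤ (k : ℝ) - j := by
      have : (j : ℝ) + 1 ≤ k := by
        have : j + 1 ≤ k := by omega
        exact_mod_cast this
      linarith
    obtain ⟨z, hz⟩ : ∃ z : ℝ, z = 100 * Δ +
      1296 * (ℓ * (n + 1)) * (n : ℝ) ^ 2 / B * (1 / ((k : ℝ) - j)) := ⟨_, rfl⟩
    rw [← hz] at e1
    have hz0 : 0 ≤ z := by
      rw [hz]
      have : (0 : ℝ) ≤ 1 / ((k : ℝ) - j) := by
        apply one_div_nonneg.2
        linarith
      positivity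
    have hz2 : 2 * z = 200 * Δ +
        2592 * (ℓ * (n + 1)) * (n : ℝ) ^ 2 / B * (1 / ((k : ℝ) - j)) := by
      rw [hz]
      ring
    have hz1 : 2 * z ≤ 1 := by
      rw [hz2]
      have f1 := par2_X P
      have f2 := par2_Y' P
      have f3 : 1 / ((k : ℝ) - j) ≤ 1 := by
        rw [div_le_one (by linarith)]
        exact hkj
      have f4 : 200 * Δ * 1 ≤ 200 * Δ * (ℓ * (n + 1)) := by
        apply mul_le_mul_of_nonneg_left _ (by positivity)
        have g1 : 1 ≤ ℓ * (n + 1) := by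
          have := P.hh
          omega
        exact_mod_cast g1
      have f5 : 2592 * (ℓ * (n + 1)) * (n : ℝ) ^ 2 / B * (1 / ((k : ℝ) - j)) ≤
          2592 * (ℓ * (n + 1)) * (n : ℝ) ^ 2 / B * 1 :=
        mul_le_mul_of_nonneg_left f3 (by positivity)
      linarith
    have e2 : sa S j * (1 - z) ≤ sa S (j + 1) := by linarith
    have e3 : 0 < sa S (j + 1) := by
      have : 0 < sa S j * (1 - z) := by
        apply mul_pos ih1
        linarith
      linarith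
    have e4 : sa S j ≤ sa S (j + 1) * Real.exp (2 * z) := by
      have g1 := Real.add_one_le_exp (2 * z)
      calc sa S j ≤ sa S j * ((1 - z) * (2 * z + 1)) := by
            have : 1 ≤ (1 - z) * (2 * z + 1) := by nlinarith
            exact le_mul_of_one_le_right ih1.le this
        _ = (sa S j * (1 - z)) * (2 * z + 1) := by ring
        _ ≤ sa S (j + 1) * (2 * z + 1) := mul_le_mul_of_nonneg_right e2 (by linarith)
        _ ≤ _ := mul_le_mul_of_nonneg_left g1 e3.le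
    refine ⟨e3, ?_⟩
    intro i hi
    rcases Nat.lt_or_ge j i with hij | hij
    · obtain rfl : i = j + 1 := by omega
      simp
    · refine (ih2 i hij).trans ?_
      have g2 : 200 * Δ * (((j + 1 : ℕ) : ℝ) - i) +
          2592 * (ℓ * (n + 1)) * (n : ℝ) ^ 2 / B * ∑ l ∈ Ico i (j + 1), 1 / ((k : ℝ) - l) =
          2 * z + (200 * Δ * ((j : ℝ) - i) +
          2592 * (ℓ * (n + 1)) * (n : ℝ) ^ 2 / B * ∑ l ∈ Ico i j, 1 / ((k : ℝ) - l)) := by
        rw [sum_Ico_succ_top hij, hz2]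
        push_cast
        ring
      rw [g2, Real.exp_add (2 * z), ← mul_assoc (sa S (j + 1))]
      exact mul_le_mul_of_nonneg_right e4 (Real.exp_pos _).le

/-- Without logarithmic term. -/
theorem sa_ratio2' {ℓ n b B q t : ℕ} {Δ : ℝ} (P : Par2 k ℓ n b B q t Δ) (hS : CodL S ℓ Δ)
    [Nonempty V] {i j : ℕ} (hij : i ≤ j) (hj : j + t ≤ k) :
    sa S i ≤ sa S j * Real.exp (200 * Δ * ((j : ℝ) - i) + 1 / 4) := by
  obtain ⟨h1, h2⟩ := sa_ratio2 S P hS hj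
  refine (h2 i hij).trans ?_
  apply mul_le_mul_of_nonneg_left _ h1.le
  apply Real.exp_le_exp.2
  have e1 := sum_log2 P (i := i) (j := j) (by omega)
  have e2 := par2_Y P
  have e3 : 2592 * (ℓ * (n + 1)) * (n : ℝ) ^ 2 / B * ∑ l ∈ Ico i j, 1 / ((k : ℝ) - l) ≤
      2592 * (ℓ * (n + 1)) * (n : ℝ) ^ 2 / B * (n + 2) :=
    mul_le_mul_of_nonneg_left e1 (by positivity)
  linarith

/-- The last `q` steps before the pool has size `q` lose little. -/
theorem sa_last2 {ℓ n b B q t : ℕ} {Δ : ℝ} (P : Par2 k ℓ n b B q t Δ) (hS : CodL S ℓ Δ)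
    [Nonempty V] {j : ℕ} (hj : j + q ≤ k) (hj' : k ≤ j + 2 * q) :
    3 / 4 * sa S (k - 2 * q) ≤ sa S j := by
  obtain ⟨h1, h2, h3, h4, h5, h6⟩ := par2_nat P
  obtain ⟨d1, d2, d3⟩ := par2_Δ P
  have hB : (0 : ℝ) < B := by exact_mod_cast h3
  have hq : (0 : ℝ) < q := by
    have : 0 < q := by omega
    exact_mod_cast this
  have h64 := P.hq3
  obtain ⟨e1, e2⟩ := sa_ratio2 S P hS (j := j) (by omega)
  have e3 := e2 (k - 2 * q) (by omega)
  have e4 : ∑ l ∈ Ico (k - 2 * q) j, 1 / ((k : ℝ) - l) ≤ 1 := by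
    calc ∑ l ∈ Ico (k - 2 * q) j, 1 / ((k : ℝ) - l) ≤ ∑ l ∈ Ico (k - 2 * q) j, 1 / (q : ℝ) := by
          apply sum_le_sum
          intro l hl
          rw [mem_Ico] at hl
          apply one_div_le_one_div_of_le hq
          have : (l : ℝ) + q ≤ k := by
            have : l + q ≤ k := by omega
            exact_mod_cast this
          linarith
      _ = ((j - (k - 2 * q) : ℕ) : ℝ) * (1 / q) := by
          rw [sum_const, Nat.card_Ico, nsmul_eq_mul]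
      _ ≤ (q : ℝ) * (1 / q) := by
          apply mul_le_mul_of_nonneg_right _ (by positivity)
          have : j - (k - 2 * q) ≤ q := by omega
          exact_mod_cast this
      _ = 1 := by field_simp
  have e5 := par2_Y' P
  have e6 := par2_Xq P
  have e7 : 200 * Δ * ((j : ℝ) - (k - 2 * q : ℕ)) ≤ 200 * Δ * q := by
    apply mul_le_mul_of_nonneg_left _ (by positivity)
    have : (j : ℝ) ≤ q + (k - 2 * q : ℕ) := by
      have : j ≤ q + (k - 2 * q) := by omega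
      exact_mod_cast this
    linarith
  have e8 : 2592 * (ℓ * (n + 1)) * (n : ℝ) ^ 2 / B *
      ∑ l ∈ Ico (k - 2 * q) j, 1 / ((k : ℝ) - l) ≤
      2592 * (ℓ * (n + 1)) * (n : ℝ) ^ 2 / B * 1 := mul_le_mul_of_nonneg_left e4 (by positivity)
  have e9 : sa S (k - 2 * q) ≤ sa S j * Real.exp (7 / 48) := by
    refine e3.trans ?_
    apply mul_le_mul_of_nonneg_left _ e1.le
    apply Real.exp_le_exp.2
    linarith
  have e10 : 3 / 4 * Real.exp (7 / 48) ≤ 1 := by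
    have f1 := Real.add_one_le_exp (-(7 / 48 : ℝ))
    have f2 : Real.exp (7 / 48) * Real.exp (-(7 / 48)) = 1 := by
      rw [← Real.exp_add]
      simp
    have f3 := Real.exp_pos (7 / 48 : ℝ)
    nlinarith
  calc 3 / 4 * sa S (k - 2 * q) ≤ 3 / 4 * (sa S j * Real.exp (7 / 48)) := by linarith
    _ = sa S j * (3 / 4 * Real.exp (7 / 48)) := by ring
    _ ≤ sa S j * 1 := mul_le_mul_of_nonneg_left e10 e1.le
    _ = sa S j := mul_one _

end RP60
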